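import Mathlib
import Pool.Agent.V11135.PlanarBook
import Pool.Agent.V11135.Dist2

/-!
# MP_dc87a5_co, Q1: `ex₂(P₅)(n) = Ω(√n)`

The graph: a vertex `z` and `c + 1` triples `v 0, v 1, v 2` of neighbours of `z`; any two vertices
of one triple are joined by `2c + 1` paths of length three.  It is planar, has girth five and
`O(c²)` vertices.  In a `(2, c)`-colouring at most `c` neighbours of a vertex lie in distance-2
classes; so two vertices joined by `2c + 1` paths of length three, both in distance-1 classes, lie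
in different ones, and every triple contains a vertex in a distance-2 class.  All these vertices
are neighbours of `z`, a contradiction.
-/

set_option autoImplicit false

open Finset Pool.Agent.V11135

namespace Pool.Agent.Results.MP_dc87a5_co.GirthFive

/-- The vertices: `z`, the triples, and the inner vertices of the paths. -/
abbrev V5 (c : ℕ) : Type := Option (Fin (c + 1) × (Fin 3 ⊕ (Fin 3 × Fin (2 * c + 1) × Bool)))

/-- First end of the bundle `i`. -/
def aa : Fin 3 → Fin 3 := ![0, 1, 0]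

/-- Second end of the bundle `i`. -/
def bb : Fin 3 → Fin 3 := ![1, 2, 2]

/-- The edges. -/
inductive R (c : ℕ) : V5 c → V5 c → Prop
  | zv (t : Fin (c + 1)) (k : Fin 3) : R c none (some (t, Sum.inl k))
  | vu (t : Fin (c + 1)) (k i : Fin 3) (j : Fin (2 * c + 1)) (h : k = aa i) :
      R c (some (t, Sum.inl k)) (some (t, Sum.inr (i, j, false)))
  | ux (t : Fin (c + 1)) (i : Fin 3) (j : Fin (2 * c + 1)) :
      R c (some (t, Sum.inr (i, j, false))) (some (t, Sum.inr (i, j, true)))
  | xv (t : Fin (c + 1)) (k i : Fin 3) (j : Fin (2 * c + 1)) (h : k = bb i) :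
      R c (some (t, Sum.inr (i, j, true))) (some (t, Sum.inl k))

/-- The graph. -/
def G5 (c : ℕ) : SimpleGraph (V5 c) where
  Adj a b := R c a b ∨ R c b a
  symm := ⟨fun _ _ h => h.symm⟩
  loopless := ⟨by
    intro a h
    rcases h with h | h <;> cases h⟩

lemma aa_ne_bb : ∀ i, aa i ≠ bb i := by decide

lemma noShort (c : ℕ) : NoShort (G5 c) := by
  refine ⟨?_, ?_⟩
  · intro a b d h1 h2 h3
    rcases h1 with h1 | h1 <;> cases h1 <;> rcases h2 with h2 | h2 <;> cases h2 <;>
      rcases h3 with h3 | h3 <;> cases h3 <;> subst_vars <;>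
      first
        | exact aa_ne_bb _ (by assumption)
        | exact aa_ne_bb _ (Eq.symm (by assumption))
  · intro a b d e h1 h2 h3 h4 had hbe
    rcases h1 with h1 | h1 <;> cases h1 <;> rcases h2 with h2 | h2 <;> cases h2 <;>
      rcases h3 with h3 | h3 <;> cases h3 <;> rcases h4 with h4 | h4 <;> cases h4 <;>
      subst_vars <;>
      first
        | exact had rfl
        | exact hbe rfl
        | exact aa_ne_bb _ (by assumption)
        | exact aa_ne_bb _ (Eq.symm (by assumption))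
        | exact hbe (by simp_all)

/-- The zones of the vertices in the book embedding. -/
def zV : Fin 3 → ℕ := ![1, 4, 7]
/-- The zones of the vertices in the book embedding. -/
def zU : Fin 3 → ℕ := ![2, 5, 0]
/-- The zones of the vertices in the book embedding. -/
def zX : Fin 3 → ℕ := ![3, 6, 8]

/-- The order on the spine. -/
def kap (c : ℕ) : V5 c → ℕ × ℕ × ℕ
  | none => (0, 0, 0)
  | some (t, Sum.inl k) => (t.val + 1, zV k, 0)
  | some (t, Sum.inr (i, j, false)) => (t.val + 1, zU i, j.val)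
  | some (t, Sum.inr (i, j, true)) => (t.val + 1, zX i, 2 * c - j.val)

lemma kap_injective (c : ℕ) : Function.Injective (kap c) := by
  have h1 : ∀ k k', zV k = zV k' → k = k' := by decide
  have h2 : ∀ k k', zU k = zU k' → k = k' := by decide
  have h3 : ∀ k k', zX k = zX k' → k = k' := by decide
  have h4 : ∀ k k', zV k ≠ zU k' := by decide
  have h5 : ∀ k k', zV k ≠ zX k' := by decide
  have h6 : ∀ k k', zU k ≠ zX k' := by decide
  intro a b hab
  rcases a with _ | ⟨t, k | ⟨i, j, _ | _⟩⟩ <;> rcases b with _ | ⟨t', k' | ⟨i', j', _ | _⟩⟩ <;>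
    simp only [kap, Prod.mk.injEq] at hab
  · rfl
  · omega
  · omega
  · omega
  · omega
  · rw [Fin.ext (show t.val = t'.val by omega), h1 k k' hab.2.1]
  · exact absurd hab.2.1 (h4 _ _)
  · exact absurd hab.2.1 (h5 _ _)
  · omega
  · exact absurd hab.2.1.symm (h4 _ _)
  · rw [Fin.ext (show t.val = t'.val by omega), h2 i i' hab.2.1, Fin.ext hab.2.2]
  · exact absurd hab.2.1 (h6 _ _)
  · omega
  · exact absurd hab.2.1.symm (h5 _ _)
  · exact absurd hab.2.1.symm (h6 _ _)
  · have hj := j.isLt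
    have hj' := j'.isLt
    rw [Fin.ext (show t.val = t'.val by omega), h3 i i' hab.2.1,
      Fin.ext (show j.val = j'.val by omega)]

/-- An inner vertex of a path. -/
def inner (c : ℕ) : V5 c → Prop
  | some (_, Sum.inr _) => True
  | _ => False

/-- The types of the edges, sorted along the spine. -/
lemma classify (c : ℕ) (a b : V5 c) (h : (G5 c).Adj a b) (hab : lt3 (kap c a) (kap c b)) :
    (¬ (inner c a ∧ inner c b) ∧ (
      (kap c a = (0, 0, 0) ∧ ∃ t z : ℕ, kap c b = (t + 1, z, 0) ∧ (z = 1 ∨ z = 4 ∨ z = 7)) ∨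
      ∃ t z p q : ℕ, kap c a = (t + 1, z, p) ∧ kap c b = (t + 1, z + 1, q) ∧
        ((z = 0 ∧ q = 0) ∨ (z = 1 ∧ p = 0) ∨ (z = 3 ∧ q = 0) ∨ (z = 4 ∧ p = 0) ∨
          (z = 6 ∧ q = 0) ∨ (z = 7 ∧ p = 0)))) ∨
    ((inner c a ∧ inner c b) ∧ ∃ t z z' j : ℕ, kap c a = (t + 1, z, j) ∧
      kap c b = (t + 1, z', 2 * c - j) ∧ j ≤ 2 * c ∧
        ((z = 2 ∧ z' = 3) ∨ (z = 5 ∧ z' = 6) ∨ (z = 0 ∧ z' = 8))) := by
  rcases h with h | h
  · cases h with
    | zv t k =>
      left
      have hz : ∀ k, zV k = 1 ∨ zV k = 4 ∨ zV k = 7 := by decide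
      exact ⟨fun h => h.1, Or.inl ⟨rfl, t, zV k, rfl, hz k⟩⟩
    | vu t k i j hk =>
      left
      refine ⟨fun h => h.1, Or.inr ?_⟩
      subst hk
      fin_cases i
      · exact ⟨t, 1, 0, j, rfl, rfl, by omega⟩
      · exact ⟨t, 4, 0, j, rfl, rfl, by omega⟩
      · exfalso
        simp [lt3, kap, aa, zV, zU] at hab
    | ux t i j =>
      right
      have hj := j.isLt
      have hz : ∀ i, (zU i = 2 ∧ zX i = 3) ∨ (zU i = 5 ∧ zX i = 6) ∨ (zU i = 0 ∧ zX i = 8) := by
        decide
      exact ⟨⟨trivial, trivial⟩, t, zU i, zX i, j, rfl, rfl, by omega, hz i⟩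
    | xv t k i j hk =>
      left
      refine ⟨fun h => h.2, Or.inr ?_⟩
      subst hk
      fin_cases i
      · exact ⟨t, 3, 2 * c - j, 0, rfl, rfl, by omega⟩
      · exact ⟨t, 6, 2 * c - j, 0, rfl, rfl, by omega⟩
      · exfalso
        simp [lt3, kap, bb, zV, zX] at hab
  · cases h with
    | zv t k =>
      exfalso
      simp [lt3, kap] at hab
    | vu t k i j hk =>
      left
      refine ⟨fun h => h.2, Or.inr ?_⟩
      subst hk
      fin_cases i
      · exfalso
        simp [lt3, kap, aa, zV, zU] at hab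
      · exfalso
        simp [lt3, kap, aa, zV, zU] at hab
      · exact ⟨t, 0, j, 0, rfl, rfl, by omega⟩
    | ux t i j =>
      exfalso
      have : ∀ i, zU i < zX i := by decide
      have := this i
      simp [lt3, kap] at hab
      omega
    | xv t k i j hk =>
      left
      refine ⟨fun h => h.1, Or.inr ?_⟩
      subst hk
      fin_cases i
      · exfalso
        simp [lt3, kap, bb, zV, zX] at hab
      · exfalso
        simp [lt3, kap, bb, zV, zX] at hab
      · exact ⟨t, 7, 0, 2 * c - j, rfl, rfl, by omega⟩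

lemma hasBook (c : ℕ) : HasBook (G5 c) := by
  refine ⟨kap c, kap_injective c, fun a b => inner c a ∧ inner c b, fun a b => and_comm, ?_⟩
  intro a b d e hab hde hup h1 h2 h3
  have c1 := classify c a b hab (lt3_trans h1 h2)
  have c2 := classify c d e hde (lt3_trans h2 h3)
  rcases c1 with ⟨n1, c1⟩ | ⟨n1, c1⟩ <;> rcases c2 with ⟨n2, c2⟩ | ⟨n2, c2⟩
  · rcases c1 with ⟨ka, t, z, kb, hz⟩ | ⟨t, z, p, q, ka, kb, hz⟩ <;>
      rcases c2 with ⟨kd, t', z', ke, hz'⟩ | ⟨t', z', p', q', kd, ke, hz'⟩ <;>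
      rw [ka, kd] at h1 <;> rw [kd, kb] at h2 <;> rw [kb, ke] at h3 <;>
      simp only [lt3] at h1 h2 h3 <;> omega
  · exact n1 (hup.mpr n2)
  · exact n2 (hup.mp n1)
  · obtain ⟨t, z, y, j, ka, kb, hj, hz⟩ := c1
    obtain ⟨t', z', y', j', kd, ke, hj', hz'⟩ := c2
    rw [ka, kd] at h1
    rw [kd, kb] at h2
    rw [kb, ke] at h3
    simp only [lt3] at h1 h2 h3
    omega

/-- There is no `(2, c)`-colouring. -/
lemma noColouring (c : ℕ) : ¬ ∃ f, Weak (G5 c) c f := by
  rintro ⟨f, hf⟩
  -- bundles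
  have hbun : ∀ (t : Fin (c + 1)) (i : Fin 3) (p q : Fin 2),
      f (some (t, Sum.inl (aa i))) = Sum.inl p → f (some (t, Sum.inl (bb i))) = Sum.inl q →
      p ≠ q := by
    intro t i p q hp hq
    refine hf.bundle (some (t, Sum.inl (aa i))) (some (t, Sum.inl (bb i)))
      (fun j => some (t, Sum.inr (i, j, false))) (fun j => some (t, Sum.inr (i, j, true)))
      ?_ ?_ ?_ ?_ ?_ p q hp hq
    · intro j j' h
      simpa using h
    · intro j j' h
      simpa using h
    · intro j
      exact Or.inr (R.vu t (aa i) i j rfl)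
    · intro j
      exact Or.inl (R.ux t i j)
    · intro j
      exact Or.inl (R.xv t (bb i) i j rfl)
  have htri : ∀ t : Fin (c + 1), ∃ k : Fin 3, ∃ j, f (some (t, Sum.inl k)) = Sum.inr j := by
    intro t
    by_contra hcon
    push Not at hcon
    have h1 : ∀ k : Fin 3, ∃ p, f (some (t, Sum.inl k)) = Sum.inl p := by
      intro k
      rcases hk : f (some (t, Sum.inl k)) with p | p
      · exact ⟨p, rfl⟩
      · exact absurd hk (hcon k p)
    choose p hp using h1
    have e0 := hbun t 0 _ _ (hp (aa 0)) (hp (bb 0))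
    have e1 := hbun t 1 _ _ (hp (aa 1)) (hp (bb 1))
    have e2 := hbun t 2 _ _ (hp (aa 2)) (hp (bb 2))
    have e0' : (p 0).val ≠ (p 1).val := fun h => e0 (Fin.ext h)
    have e1' : (p 1).val ≠ (p 2).val := fun h => e1 (Fin.ext h)
    have e2' : (p 0).val ≠ (p 2).val := fun h => e2 (Fin.ext h)
    have := (p 0).isLt
    have := (p 1).isLt
    have := (p 2).isLt
    omega
  choose k hk using htri
  have := hf.load (ι := Fin (c + 1)) (fun t => some (t, Sum.inl (k t))) (by
    intro t t' h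
    simp only [Option.some.injEq, Prod.mk.injEq] at h
    exact h.1) none (fun t => Or.inr (R.zv t (k t))) univ (fun t _ => hk t)
  rw [card_univ, Fintype.card_fin] at this
  omega

lemma card_V5 (c : ℕ) : Fintype.card (V5 c) ≤ 12 * (c + 1) ^ 2 := by
  simp only [V5, Fintype.card_option, Fintype.card_prod, Fintype.card_sum, Fintype.card_fin,
    Fintype.card_bool]
  nlinarith

/-- `m ≤ ex₂(P₅)(n)` whenever `12 m² ≤ n`. -/
lemma bound (m n : ℕ) (hm : 0 < m) (hn : 12 * m ^ 2 ≤ n) : m ≤ exk 2 5 n := by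
  obtain ⟨c, rfl⟩ : ∃ c, m = c + 1 := ⟨m - 1, by omega⟩
  exact lt_exk (G5 c) 5 c n ((card_V5 c).trans hn) (hasBook c)
    (fun k => egirth_five (noShort_pad k (noShort c))) (noColouring c)

/-- **Q1 is answered in the negative**: `ex₂(P₅)(n)` is at least of order `√n`, so it is not
`O(n^{1/3})`. -/
theorem result :
    (fun n : ℕ => (n : ℝ) ^ ((1 : ℝ) / 2)) =O[Filter.atTop] (fun n : ℕ => (exk 2 5 n : ℝ)) ∧
    ¬ (fun n : ℕ => (exk 2 5 n : ℝ)) =O[Filter.atTop] (fun n : ℕ => (n : ℝ) ^ ((1 : ℝ) / 3)) := by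
  have h1 : (fun n : ℕ => (n : ℝ) ^ ((1 : ℝ) / 2)) =O[Filter.atTop]
      (fun n : ℕ => (exk 2 5 n : ℝ)) := by
    have := isBigO_of_bound 2 12 (by norm_num) (by norm_num) (exk 2 5) bound
    exact_mod_cast this
  exact ⟨h1, not_isBigO _ _ (by norm_num) _ h1⟩

end Pool.Agent.Results.MP_dc87a5_co.GirthFive
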