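import Mathlib
import Pool.Agent.V11135.PlanarBook
import Pool.Agent.V11135.Dist2

/-!
# MP_dc87a5_co, Q2: `ex₂(P₆)(n) = Ω(n^{1/3})`

The graph: a vertex `hub` and `c + 1` blocks.  The block `j` has vertices `z` and `y` and `2c + 1`
pairs `v, w`, where `v` is adjacent to `z` and `w` is adjacent to `y`; there are `2c + 1` paths of
length three between `v` and `w`, and as many between `w` and `z`.  The vertex `hub` is adjacent to
the vertices `z`.  The graph is planar, has girth six and `O(c³)` vertices.  In a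
`(2, c)`-colouring at most `c` neighbours of a vertex lie in distance-2 classes.  So if `z` is in a
distance-1 class, then so are `v` and `w` for some pair, and the three vertices `z, v, w` lie in
pairwise different distance-1 classes.  Hence all vertices `z` are in distance-2 classes; but they
are neighbours of `hub`.
-/

set_option autoImplicit false

open Finset Pool.Agent.V11135

namespace Pool.Agent.Results.MP_dc87a5_co.GirthSix

/-- The vertices. -/
abbrev V6 (c : ℕ) : Type :=
  Option (Fin (c + 1) × (Bool ⊕ (Fin (2 * c + 1) × (Bool ⊕ (Bool × Fin (2 * c + 1) × Bool)))))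

section Names

variable {c : ℕ}

/-- The vertex `z` of a block. -/
@[match_pattern] abbrev vz (j : Fin (c + 1)) : V6 c := some (j, Sum.inl false)
/-- The vertex `y` of a block. -/
@[match_pattern] abbrev vy (j : Fin (c + 1)) : V6 c := some (j, Sum.inl true)
/-- A vertex `v`. -/
@[match_pattern] abbrev vv (j : Fin (c + 1)) (t : Fin (2 * c + 1)) : V6 c :=
  some (j, Sum.inr (t, Sum.inl false))
/-- A vertex `w`. -/
@[match_pattern] abbrev vw (j : Fin (c + 1)) (t : Fin (2 * c + 1)) : V6 c :=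
  some (j, Sum.inr (t, Sum.inl true))
/-- Inner vertices of the paths from `v` to `w`. -/
@[match_pattern] abbrev vu1 (j : Fin (c + 1)) (t i : Fin (2 * c + 1)) : V6 c :=
  some (j, Sum.inr (t, Sum.inr (false, i, false)))
/-- Inner vertices of the paths from `v` to `w`. -/
@[match_pattern] abbrev vx1 (j : Fin (c + 1)) (t i : Fin (2 * c + 1)) : V6 c :=
  some (j, Sum.inr (t, Sum.inr (false, i, true)))
/-- Inner vertices of the paths from `w` to `z`. -/
@[match_pattern] abbrev vu2 (j : Fin (c + 1)) (t i : Fin (2 * c + 1)) : V6 c :=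
  some (j, Sum.inr (t, Sum.inr (true, i, false)))
/-- Inner vertices of the paths from `w` to `z`. -/
@[match_pattern] abbrev vx2 (j : Fin (c + 1)) (t i : Fin (2 * c + 1)) : V6 c :=
  some (j, Sum.inr (t, Sum.inr (true, i, true)))

end Names

/-- The edges. -/
inductive R (c : ℕ) : V6 c → V6 c → Prop
  | hz (j : Fin (c + 1)) : R c none (vz j)
  | zv (j : Fin (c + 1)) (t : Fin (2 * c + 1)) : R c (vz j) (vv j t)
  | wy (j : Fin (c + 1)) (t : Fin (2 * c + 1)) : R c (vw j t) (vy j)
  | vu (j : Fin (c + 1)) (t i : Fin (2 * c + 1)) : R c (vv j t) (vu1 j t i)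
  | ux1 (j : Fin (c + 1)) (t i : Fin (2 * c + 1)) : R c (vu1 j t i) (vx1 j t i)
  | xw (j : Fin (c + 1)) (t i : Fin (2 * c + 1)) : R c (vx1 j t i) (vw j t)
  | wu (j : Fin (c + 1)) (t i : Fin (2 * c + 1)) : R c (vw j t) (vu2 j t i)
  | ux2 (j : Fin (c + 1)) (t i : Fin (2 * c + 1)) : R c (vu2 j t i) (vx2 j t i)
  | xz (j : Fin (c + 1)) (t i : Fin (2 * c + 1)) : R c (vx2 j t i) (vz j)

/-- The graph. -/
def G6 (c : ℕ) : SimpleGraph (V6 c) where
  Adj a b := R c a b ∨ R c b a
  symm := ⟨fun _ _ h => h.symm⟩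
  loopless := ⟨by
    intro a h
    rcases h with h | h <;> cases h⟩

lemma noShort (c : ℕ) : NoShort (G6 c) := by
  refine ⟨?_, ?_⟩
  · intro a b d h1 h2 h3
    rcases h1 with h1 | h1 <;> cases h1 <;> rcases h2 with h2 | h2 <;> cases h2 <;>
      rcases h3 with h3 | h3 <;> cases h3
  · intro a b d e h1 h2 h3 h4 had hbe
    rcases h1 with h1 | h1 <;> cases h1 <;> rcases h2 with h2 | h2 <;> cases h2 <;>
      rcases h3 with h3 | h3 <;> cases h3 <;> rcases h4 with h4 | h4 <;> cases h4 <;>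
      first
        | exact had rfl
        | exact hbe rfl

lemma noFive (c : ℕ) : NoFive (G6 c) := by
  intro a b d e f h1 h2 h3 h4 h5 p1 p2 p3 p4 p5
  rcases h1 with h1 | h1 <;> cases h1 <;> rcases h2 with h2 | h2 <;> cases h2 <;>
    rcases h3 with h3 | h3 <;> cases h3 <;> rcases h4 with h4 | h4 <;> cases h4 <;>
    rcases h5 with h5 | h5 <;> cases h5

/-- The order on the spine. -/
def kap (c : ℕ) : V6 c → ℕ × ℕ × ℕ
  | none => (0, 0, 0)
  | vz j => (j.val + 1, 0, 0)
  | vy j => (j.val + 1, 6 * (2 * c + 1) + 1, 0)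
  | vv j t => (j.val + 1, 6 * t.val + 6, 0)
  | vw j t => (j.val + 1, 6 * t.val + 3, 0)
  | vu1 j t i => (j.val + 1, 6 * t.val + 5, 2 * c - i.val)
  | vx1 j t i => (j.val + 1, 6 * t.val + 4, i.val)
  | vu2 j t i => (j.val + 1, 6 * t.val + 2, 2 * c - i.val)
  | vx2 j t i => (j.val + 1, 6 * t.val + 1, i.val)

lemma kap_injective (c : ℕ) : Function.Injective (kap c) := by
  intro a b hab
  rcases a with _ | ⟨j, (_ | _) | ⟨t, (_ | _) | ⟨_ | _, i, _ | _⟩⟩⟩ <;>
    rcases b with _ | ⟨j', (_ | _) | ⟨t', (_ | _) | ⟨_ | _, i', _ | _⟩⟩⟩ <;>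
    simp only [kap, Prod.mk.injEq] at hab <;>
    first
      | rfl
      | (exfalso; omega)
      | (have := i.isLt
         have := i'.isLt
         rw [Fin.ext (show j.val = j'.val by omega), Fin.ext (show t.val = t'.val by omega),
          Fin.ext (show i.val = i'.val by omega)])
      | (rw [Fin.ext (show j.val = j'.val by omega), Fin.ext (show t.val = t'.val by omega)])
      | (rw [Fin.ext (show j.val = j'.val by omega)])

/-- The edges of the lower page. -/
def dn (c : ℕ) : V6 c → V6 c → Prop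
  | vy _, _ => True
  | _, vy _ => True
  | some (_, Sum.inr (_, Sum.inr _)), some (_, Sum.inr (_, Sum.inr _)) => True
  | _, _ => False

lemma dn_comm (c : ℕ) (a b : V6 c) : dn c a b ↔ dn c b a := by
  rcases a with _ | ⟨j, (_ | _) | ⟨t, (_ | _) | ⟨_ | _, i, _ | _⟩⟩⟩ <;>
    rcases b with _ | ⟨j', (_ | _) | ⟨t', (_ | _) | ⟨_ | _, i', _ | _⟩⟩⟩ <;>
    simp [dn]

/-- The types of the edges, sorted along the spine. -/
lemma classify (c : ℕ) (a b : V6 c) (h : (G6 c).Adj a b) (hab : lt3 (kap c a) (kap c b)) :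
    (¬ dn c a b ∧ (
      (kap c a = (0, 0, 0) ∧ ∃ j : ℕ, kap c b = (j + 1, 0, 0)) ∨
      (∃ j t p : ℕ, kap c a = (j + 1, 0, 0) ∧
        (kap c b = (j + 1, 6 * t + 1, p) ∨ kap c b = (j + 1, 6 * t + 6, 0))) ∨
      ∃ j t p : ℕ,
        (kap c a = (j + 1, 6 * t + 2, p) ∧ kap c b = (j + 1, 6 * t + 3, 0)) ∨
        (kap c a = (j + 1, 6 * t + 3, 0) ∧ kap c b = (j + 1, 6 * t + 4, p)) ∨
        (kap c a = (j + 1, 6 * t + 5, p) ∧ kap c b = (j + 1, 6 * t + 6, 0)))) ∨
    (dn c a b ∧ ∃ j t i : ℕ, i ≤ 2 * c ∧ t ≤ 2 * c ∧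
      ((kap c a = (j + 1, 6 * t + 1, i) ∧ kap c b = (j + 1, 6 * t + 2, 2 * c - i)) ∨
       (kap c a = (j + 1, 6 * t + 4, i) ∧ kap c b = (j + 1, 6 * t + 5, 2 * c - i)) ∨
       (kap c a = (j + 1, 6 * t + 3, 0) ∧ kap c b = (j + 1, 6 * (2 * c + 1) + 1, 0)))) := by
  rcases h with h | h
  · cases h with
    | hz j => exact Or.inl ⟨id, Or.inl ⟨rfl, j, rfl⟩⟩
    | zv j t => exact Or.inl ⟨id, Or.inr (Or.inl ⟨j, t, 0, rfl, Or.inr rfl⟩)⟩
    | wy j t =>
      have := t.isLt
      exact Or.inr ⟨trivial, j, t, 0, by omega, by omega, Or.inr (Or.inr ⟨rfl, rfl⟩)⟩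
    | vu j t i =>
      exfalso
      simp only [lt3, kap] at hab
      omega
    | ux1 j t i =>
      exfalso
      simp only [lt3, kap] at hab
      omega
    | xw j t i =>
      exfalso
      simp only [lt3, kap] at hab
      omega
    | wu j t i =>
      exfalso
      simp only [lt3, kap] at hab
      omega
    | ux2 j t i =>
      exfalso
      simp only [lt3, kap] at hab
      omega
    | xz j t i =>
      exfalso
      simp only [lt3, kap] at hab
      omega
  · cases h with
    | hz j =>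
      exfalso
      simp only [lt3, kap] at hab
      omega
    | zv j t =>
      exfalso
      simp only [lt3, kap] at hab
      omega
    | wy j t =>
      exfalso
      have := t.isLt
      simp only [lt3, kap] at hab
      omega
    | vu j t i =>
      exact Or.inl ⟨id, Or.inr (Or.inr ⟨j, t, _, Or.inr (Or.inr ⟨rfl, rfl⟩)⟩)⟩
    | ux1 j t i =>
      have := i.isLt
      have := t.isLt
      exact Or.inr ⟨trivial, j, t, i, by omega, by omega, Or.inr (Or.inl ⟨rfl, rfl⟩)⟩
    | xw j t i =>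
      exact Or.inl ⟨id, Or.inr (Or.inr ⟨j, t, _, Or.inr (Or.inl ⟨rfl, rfl⟩)⟩)⟩
    | wu j t i =>
      exact Or.inl ⟨id, Or.inr (Or.inr ⟨j, t, _, Or.inl ⟨rfl, rfl⟩⟩)⟩
    | ux2 j t i =>
      have := i.isLt
      have := t.isLt
      exact Or.inr ⟨trivial, j, t, i, by omega, by omega, Or.inl ⟨rfl, rfl⟩⟩
    | xz j t i =>
      exact Or.inl ⟨id, Or.inr (Or.inl ⟨j, t, i, rfl, Or.inl rfl⟩)⟩

lemma hasBook (c : ℕ) : HasBook (G6 c) := by
  refine ⟨kap c, kap_injective c, dn c, dn_comm c, ?_⟩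
  intro a b d e hab hde hup h1 h2 h3
  have c1 := classify c a b hab (lt3_trans h1 h2)
  have c2 := classify c d e hde (lt3_trans h2 h3)
  rcases c1 with ⟨n1, c1⟩ | ⟨n1, c1⟩ <;> rcases c2 with ⟨n2, c2⟩ | ⟨n2, c2⟩
  · rcases c1 with ⟨ka, j, kb⟩ | ⟨j, t, p, ka, kb | kb⟩ |
        ⟨j, t, p, ⟨ka, kb⟩ | ⟨ka, kb⟩ | ⟨ka, kb⟩⟩ <;>
      rcases c2 with ⟨kd, j', ke⟩ | ⟨j', t', p', kd, ke | ke⟩ |
        ⟨j', t', p', ⟨kd, ke⟩ | ⟨kd, ke⟩ | ⟨kd, ke⟩⟩ <;>
      rw [ka, kd] at h1 <;> rw [kd, kb] at h2 <;> rw [kb, ke] at h3 <;>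
      simp only [lt3] at h1 h2 h3 <;> omega
  · exact n1 (hup.mpr n2)
  · exact n2 (hup.mp n1)
  · obtain ⟨j, t, i, hi, ht, c1⟩ := c1
    obtain ⟨j', t', i', hi', ht', c2⟩ := c2
    rcases c1 with ⟨ka, kb⟩ | ⟨ka, kb⟩ | ⟨ka, kb⟩ <;>
      rcases c2 with ⟨kd, ke⟩ | ⟨kd, ke⟩ | ⟨kd, ke⟩ <;>
      rw [ka, kd] at h1 <;> rw [kd, kb] at h2 <;> rw [kb, ke] at h3 <;>
      simp only [lt3] at h1 h2 h3 <;> omega

/-- There is no `(2, c)`-colouring. -/
lemma noColouring (c : ℕ) : ¬ ∃ f, Weak (G6 c) c f := by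
  classical
  rintro ⟨f, hf⟩
  have hz : ∀ j : Fin (c + 1), ∃ q, f (vz j) = Sum.inr q := by
    intro j
    rcases hzj : f (vz j) with p | q
    · exfalso
      set S := univ.filter fun t : Fin (2 * c + 1) => ∃ q, f (vv j t) = Sum.inr q with hS
      set T := univ.filter fun t : Fin (2 * c + 1) => ∃ q, f (vw j t) = Sum.inr q with hT
      have hSc : S.card ≤ c := hf.load (fun t => vv j t) (by
        intro t t' h
        simpa using h) (vz j) (fun t => Or.inr (R.zv j t)) S fun t ht => (mem_filter.mp ht).2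
      have hTc : T.card ≤ c := hf.load (fun t => vw j t) (by
        intro t t' h
        simpa using h) (vy j) (fun t => Or.inl (R.wy j t)) T fun t ht => (mem_filter.mp ht).2
      have h4 : ∃ t, t ∉ S ∪ T := by
        by_contra hcon
        push Not at hcon
        have h5 : (univ : Finset (Fin (2 * c + 1))) ⊆ S ∪ T := fun t _ => hcon t
        have h6 := (card_le_card h5).trans (card_union_le _ _)
        rw [card_univ, Fintype.card_fin] at h6
        omega
      obtain ⟨t, ht⟩ := h4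
      rw [mem_union, not_or] at ht
      obtain ⟨ht1, ht2⟩ := ht
      rcases hv : f (vv j t) with a | a
      · rcases hw : f (vw j t) with b | b
        · have e1 : p ≠ a := fun h' => hf.1 (vz j) (vv j t) a (Or.inl (R.zv j t)) (h' ▸ hzj) hv
          have e2 : a ≠ b := by
            refine hf.bundle (vv j t) (vw j t) (fun i => vu1 j t i) (fun i => vx1 j t i)
              ?_ ?_ ?_ ?_ ?_ a b hv hw
            · intro i i' h
              simpa using h
            · intro i i' h
              simpa using h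
            · intro i
              exact Or.inr (R.vu j t i)
            · intro i
              exact Or.inl (R.ux1 j t i)
            · intro i
              exact Or.inl (R.xw j t i)
          have e3 : b ≠ p := by
            refine hf.bundle (vw j t) (vz j) (fun i => vu2 j t i) (fun i => vx2 j t i)
              ?_ ?_ ?_ ?_ ?_ b p hw hzj
            · intro i i' h
              simpa using h
            · intro i i' h
              simpa using h
            · intro i
              exact Or.inr (R.wu j t i)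
            · intro i
              exact Or.inl (R.ux2 j t i)
            · intro i
              exact Or.inl (R.xz j t i)
          have e1' : p.val ≠ a.val := fun h => e1 (Fin.ext h)
          have e2' : a.val ≠ b.val := fun h => e2 (Fin.ext h)
          have e3' : b.val ≠ p.val := fun h => e3 (Fin.ext h)
          have := a.isLt
          have := b.isLt
          have := p.isLt
          omega
        · exact ht2 (mem_filter.mpr ⟨mem_univ _, b, hw⟩)
      · exact ht1 (mem_filter.mpr ⟨mem_univ _, a, hv⟩)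
    · exact ⟨q, rfl⟩
  have := hf.load (ι := Fin (c + 1)) (fun j => vz j) (by
    intro j j' h
    simpa using h) none (fun j => Or.inr (R.hz j)) univ (fun j _ => hz j)
  rw [card_univ, Fintype.card_fin] at this
  omega

lemma card_V6 (c : ℕ) : Fintype.card (V6 c) ≤ 19 * (c + 1) ^ 3 := by
  simp only [V6, Fintype.card_option, Fintype.card_prod, Fintype.card_sum, Fintype.card_fin,
    Fintype.card_bool]
  nlinarith [Nat.zero_le (c ^ 3), Nat.zero_le (c ^ 2), Nat.zero_le c]

/-- `m ≤ ex₂(P₆)(n)` whenever `19 m³ ≤ n`. -/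
lemma bound (m n : ℕ) (hm : 0 < m) (hn : 19 * m ^ 3 ≤ n) : m ≤ exk 2 6 n := by
  obtain ⟨c, rfl⟩ : ∃ c, m = c + 1 := ⟨m - 1, by omega⟩
  exact lt_exk (G6 c) 6 c n ((card_V6 c).trans hn) (hasBook c)
    (fun k => egirth_six (noShort_pad k (noShort c)) (noFive_pad k (noFive c))) (noColouring c)

/-- **Q2 is answered in the negative**: `ex₂(P₆)(n)` is at least of order `n^{1/3}`, so it is not
`O(n^{1/4})`. -/
theorem result :
    (fun n : ℕ => (n : ℝ) ^ ((1 : ℝ) / 3)) =O[Filter.atTop] (fun n : ℕ => (exk 2 6 n : ℝ)) ∧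
    ¬ (fun n : ℕ => (exk 2 6 n : ℝ)) =O[Filter.atTop] (fun n : ℕ => (n : ℝ) ^ ((1 : ℝ) / 4)) := by
  have h1 : (fun n : ℕ => (n : ℝ) ^ ((1 : ℝ) / 3)) =O[Filter.atTop]
      (fun n : ℕ => (exk 2 6 n : ℝ)) := by
    have := isBigO_of_bound 3 19 (by norm_num) (by norm_num) (exk 2 6) bound
    exact_mod_cast this
  exact ⟨h1, not_isBigO _ _ (by norm_num) _ h1⟩

end Pool.Agent.Results.MP_dc87a5_co.GirthSix
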